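import Pool.Agent.H444R3.GapConf

set_option autoImplicit false

/-!
The family of graphs of minimum degree at least `d`: planes of order `q ≥ d` against designs with
block size `d`.
-/

namespace Pool.Agent.T6.H87.GapMin

open Finset Configuration
open Pool.Agent.H444R3.GapDefs Pool.Agent.H177R2.SD

/-- parameters of a symmetric design -/
theorem symm_par {v k l : ℕ} (h : IsSymmetricDesign v k l) : k * k = k + l * (v - 1) := by
  classical
  obtain ⟨hkv, r, B, hB, hr, hl⟩ := h
  have hv : 0 < v := by omega
  -- r = k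
  have h1 : v * r = v * k := by
    have e1 : ∑ x : Fin v, (univ.filter fun i => x ∈ B i).card = v * r := by
      rw [Finset.sum_congr rfl (fun x _ => hr x), Finset.sum_const, Finset.card_univ,
        Fintype.card_fin, smul_eq_mul]
    have e2 : ∑ x : Fin v, (univ.filter fun i => x ∈ B i).card = ∑ i : Fin v, (B i).card := by
      simp only [Finset.card_filter]
      rw [Finset.sum_comm]
      apply Finset.sum_congr rfl
      intro i _
      rw [← Finset.card_filter]
      congr 1
      ext x
      simp
    rw [← e1, e2, Finset.sum_congr rfl (fun i _ => hB i), Finset.sum_const, Finset.card_univ,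
      Fintype.card_fin, smul_eq_mul]
  have hrk : r = k := Nat.eq_of_mul_eq_mul_left hv h1
  subst hrk
  let x : Fin v := ⟨0, hv⟩
  have e1 : ∑ y : Fin v, (univ.filter fun i => x ∈ B i ∧ y ∈ B i).card = r * r := by
    simp only [Finset.card_filter]
    rw [Finset.sum_comm]
    have : ∀ i : Fin v, (∑ y : Fin v, if x ∈ B i ∧ y ∈ B i then 1 else 0) =
        if x ∈ B i then r else 0 := by
      intro i
      by_cases hx : x ∈ B i
      · simp only [hx, true_and, if_true]
        rw [← Finset.card_filter, ← hB i]
        congr 1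
        ext y
        simp
      · simp [hx]
    rw [Finset.sum_congr rfl (fun i _ => this i), ← Finset.sum_filter, Finset.sum_const, hr x,
      smul_eq_mul]
  rw [← e1, ← Finset.add_sum_erase univ _ (mem_univ x)]
  congr 1
  · rw [← hr x]
    congr 1
    ext i
    simp
  · rw [Finset.sum_congr rfl (fun y hy => hl x y (Finset.ne_of_mem_erase hy).symm),
      Finset.sum_const, Finset.card_erase_of_mem (mem_univ x), Finset.card_univ, Fintype.card_fin,
      smul_eq_mul, mul_comm]

/-- a symmetric design with `l = 1` is a projective plane -/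
theorem plane_of_symm {v k : ℕ} (hk : 3 ≤ k) (h : IsSymmetricDesign v k 1) :
    ¬ NoPlane (k - 1) := by
  classical
  have hpar := symm_par h
  rw [one_mul] at hpar
  obtain ⟨hkv, r, B, hB, hr, hl⟩ := h
  have hv : 0 < v := by omega
  have hkk : 3 * k ≤ k * k := Nat.mul_le_mul_right k hk
  have hv7 : v = k * k - k + 1 := by omega
  -- points `Fin v`, lines `Fin v`
  let P := Fin v
  let L := ULift.{0} (Fin v)
  letI mem : Membership P L := ⟨fun l p => p ∈ B l.down⟩
  have hmem : ∀ (p : P) (l : L), p ∈ l ↔ p ∈ B l.down := fun p l => Iff.rfl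
  have hr0 : 0 < r := by
    by_contra h0
    have h0 : r = 0 := by omega
    have e : ∀ x : Fin v, ∀ i, x ∉ B i := by
      intro x i hx
      have := hr x
      rw [h0, Finset.card_eq_zero] at this
      have h2 : i ∈ (univ.filter fun i => x ∈ B i) := by simp [hx]
      rw [this] at h2
      simp at h2
    have := hB ⟨0, hv⟩
    have h2 : B ⟨0, hv⟩ = ∅ := by
      ext x; simp [e x]
    rw [h2] at this
    simp at this
    omega
  have hrk : r = k := by
    have e1 : ∑ x : Fin v, (univ.filter fun i => x ∈ B i).card = v * r := by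
      rw [Finset.sum_congr rfl (fun x _ => hr x), Finset.sum_const, Finset.card_univ,
        Fintype.card_fin, smul_eq_mul]
    have e2 : ∑ x : Fin v, (univ.filter fun i => x ∈ B i).card = ∑ i : Fin v, (B i).card := by
      simp only [Finset.card_filter]
      rw [Finset.sum_comm]
      apply Finset.sum_congr rfl
      intro i _
      rw [← Finset.card_filter]
      congr 1
      ext x
      simp
    have h1 : v * r = v * k := by
      rw [← e1, e2, Finset.sum_congr rfl (fun i _ => hB i), Finset.sum_const, Finset.card_univ,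
        Fintype.card_fin, smul_eq_mul]
    exact Nat.eq_of_mul_eq_mul_left hv h1
  -- existence and uniqueness of lines
  have hline : ∀ p q : Fin v, p ≠ q → ∃ i, p ∈ B i ∧ q ∈ B i := by
    intro p q hpq
    have h1 := hl p q hpq
    obtain ⟨i, hi⟩ := Finset.card_pos.1 (by rw [h1]; norm_num :
      0 < (univ.filter fun i => p ∈ B i ∧ q ∈ B i).card)
    exact ⟨i, (Finset.mem_filter.1 hi).2⟩
  have huniq : ∀ p q : Fin v, p ≠ q → ∀ i j, p ∈ B i → q ∈ B i → p ∈ B j → q ∈ B j → i = j := by
    intro p q hpq i j h1 h2 h3 h4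
    have h5 := Finset.card_le_one.1 (hl p q hpq).le
    exact h5 i (by simp [h1, h2]) j (by simp [h3, h4])
  letI nd : Nondegenerate P L :=
    { exists_point := by
        intro l
        by_contra hcon
        push Not at hcon
        have : B l.down = univ := by
          ext x
          simp only [mem_univ, iff_true]
          exact hcon x
        have h1 := hB l.down
        rw [this, Finset.card_univ, Fintype.card_fin] at h1
        omega
      exists_line := by
        intro p
        by_contra hcon
        push Not at hcon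
        have h1 := hr p
        have : (univ.filter fun i => p ∈ B i) = univ := by
          ext i
          simp only [mem_filter, mem_univ, true_and, iff_true]
          exact hcon ⟨i⟩
        rw [this, Finset.card_univ, Fintype.card_fin] at h1
        omega
      eq_or_eq := by
        intro p₁ p₂ l₁ l₂ h1 h2 h3 h4
        by_cases hp : p₁ = p₂
        · exact Or.inl hp
        · right
          have := huniq p₁ p₂ hp l₁.down l₂.down h1 h2 h3 h4
          exact ULift.ext _ _ this }
  letI hlines : HasLines P L :=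
    { mkLine := fun {p₁ p₂} h => ⟨(hline p₁ p₂ h).choose⟩
      mkLine_ax := fun {p₁ p₂} h => (hline p₁ p₂ h).choose_spec }
  letI fP : Fintype P := inferInstanceAs (Fintype (Fin v))
  letI fL : Fintype L := inferInstanceAs (Fintype (ULift (Fin v)))
  have hcard : Fintype.card P = Fintype.card L := by
    change Fintype.card (Fin v) = Fintype.card (ULift (Fin v))
    simp
  letI hpoints : HasPoints P L := HasLines.hasPoints hcard
  -- the configuration
  have hconf : ∃ (p₁ p₂ p₃ : P) (l₁ l₂ l₃ : L),
      p₁ ∉ l₂ ∧ p₁ ∉ l₃ ∧ p₂ ∉ l₁ ∧ p₂ ∈ l₂ ∧ p₂ ∈ l₃ ∧ p₃ ∉ l₁ ∧ p₃ ∈ l₂ ∧ p₃ ∉ l₃ := by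
    -- a point `p₂`, with three lines through it
    let p₂ : Fin v := ⟨0, hv⟩
    have h1 : 2 < (univ.filter fun i => p₂ ∈ B i).card := by rw [hr p₂]; omega
    obtain ⟨a, ha, b, hb, c, hc, hab, hac, hbc⟩ := Finset.two_lt_card.1 h1
    rw [mem_filter] at ha hb hc
    -- a point `p₁ ≠ p₂` on the line `a`
    obtain ⟨p₁, hp₁, hp₁ne⟩ := Finset.exists_mem_ne (by rw [hB a]; omega : 1 < (B a).card) p₂
    have hp1b : p₁ ∉ B b := fun h => hab (huniq p₁ p₂ hp₁ne a b hp₁ ha.2 h hb.2)
    have hp1c : p₁ ∉ B c := fun h => hac (huniq p₁ p₂ hp₁ne a c hp₁ ha.2 h hc.2)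
    -- a point `p₃ ≠ p₂` on the line `b`
    obtain ⟨p₃, hp₃, hp₃ne⟩ := Finset.exists_mem_ne (by rw [hB b]; omega : 1 < (B b).card) p₂
    have hp3c : p₃ ∉ B c := fun h => hbc (huniq p₃ p₂ hp₃ne b c hp₃ hb.2 h hc.2)
    -- a line avoiding `p₂` and `p₃`
    have h2 : ((univ.filter fun i => p₂ ∈ B i) ∪ (univ.filter fun i => p₃ ∈ B i)).card < v := by
      refine lt_of_le_of_lt (Finset.card_union_le _ _) ?_
      rw [hr p₂, hr p₃, hrk]
      omega
    obtain ⟨l, hl'⟩ : ∃ l, l ∉ ((univ.filter fun i => p₂ ∈ B i) ∪
        (univ.filter fun i => p₃ ∈ B i)) := by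
      by_contra hcon
      push Not at hcon
      have : ((univ.filter fun i => p₂ ∈ B i) ∪ (univ.filter fun i => p₃ ∈ B i)) = univ := by
        ext i; simp only [mem_univ, iff_true]; exact hcon i
      rw [this, Finset.card_univ, Fintype.card_fin] at h2
      omega
    rw [mem_union, mem_filter, mem_filter] at hl'
    push Not at hl'
    exact ⟨p₁, p₂, p₃, ⟨l⟩, ⟨b⟩, ⟨c⟩, hp1b, hp1c, hl'.1 (mem_univ _), hb.2, hc.2,
      hl'.2 (mem_univ _), hp₃, hp3c⟩
  letI pp : ProjectivePlane P L :=
    { hpoints, hlines with exists_config := hconf }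
  intro hno
  apply hno
  refine ⟨P, L, mem, fP, fL, pp, ?_⟩
  have h1 := ProjectivePlane.lineCount_eq (P := P) L (⟨0, hv⟩ : Fin v)
  have h2 : lineCount L (⟨0, hv⟩ : P) = r := by
    rw [← hr ⟨0, hv⟩, lineCount, Nat.card_eq_fintype_card, Fintype.card_subtype]
    refine Finset.card_bij (fun l _ => l.down) ?_ ?_ ?_
    · intro l hl'
      rw [mem_filter] at hl' ⊢
      exact ⟨mem_univ _, hl'.2⟩
    · intro l _ l' _ h
      exact ULift.ext _ _ h
    · intro i hi
      rw [mem_filter] at hi
      exact ⟨⟨i⟩, by rw [mem_filter]; exact ⟨mem_univ _, hi.2⟩, rfl⟩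
  rw [h2] at h1
  omega

end Pool.Agent.T6.H87.GapMin
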