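import Pool.Agent.T6.H87.GapMin

set_option autoImplicit false

/-!
Designs with block size `d` against planes of order `q ≥ d`.
-/

namespace Pool.Agent.T6.H87.GapMin

open Finset Configuration
open Pool.Agent.H444R3.GapDefs Pool.Agent.H177R2.SD

/-- the comparison of the two values -/
theorem poly_lt {d q c l : ℕ} (hdq : d ≤ q) (hc : q + 2 ≤ d + c) (hl : c ≤ l) (hld : l ≤ d) :
    ((d : ℝ) - l) * ((q : ℝ) + 1) ^ 2 < (q : ℝ) * (d : ℝ) ^ 2 := by
  obtain ⟨j, rfl⟩ := Nat.exists_eq_add_of_le hdq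
  have h1 : (d : ℝ) - l ≤ (d : ℝ) - j - 2 := by
    have : ((d + j + 2 : ℕ) : ℝ) ≤ ((d + l : ℕ) : ℝ) := by exact_mod_cast (by omega)
    push_cast at this
    linarith
  have h2 : ((d : ℝ) - l) * ((((d + j : ℕ) : ℝ)) + 1) ^ 2 ≤
      ((d : ℝ) - j - 2) * ((((d + j : ℕ) : ℝ)) + 1) ^ 2 := by
    apply mul_le_mul_of_nonneg_right h1 (by positivity)
  refine lt_of_le_of_lt h2 ?_
  push_cast
  have hd : (0 : ℝ) ≤ d := Nat.cast_nonneg d
  have hj : (0 : ℝ) ≤ j := Nat.cast_nonneg j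
  have h3 : ((d : ℝ) + j) * (d : ℝ) ^ 2 - ((d : ℝ) - j - 2) * ((d : ℝ) + j + 1) ^ 2
      = (d : ℝ) * (j + 1) * (j + 3) + (j + 2) * (j + 1) ^ 2 := by ring
  have h4 : (0 : ℝ) < (d : ℝ) * (j + 1) * (j + 3) + (j + 2) * (j + 1) ^ 2 := by positivity
  linarith

open Classical in
/-- design graphs with block size `d` of minimum degree at least `d` -/
theorem design_lt {d q c : ℕ} (hd : 3 ≤ d) (hdq : d ≤ q) (hc : q + 2 ≤ d + c)
    (hno : ∀ l, 1 ≤ l → l < c → ∀ v, ¬ IsSymmetricDesign v d l)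
    {V : Type} [Fintype V] (G : SimpleGraph V) (hG : IsMinDeg d G) (hD : IsDesignGraph G d) :
    gap G < Real.sqrt q / ((q : ℝ) + 1) := by
  obtain ⟨hcon, h3, hmin⟩ := hG
  obtain ⟨P, l, hbip, hk, hl⟩ := hD
  have : Nonempty V := Fintype.card_pos_iff.1 (by omega)
  have hq0 : (0 : ℝ) < q := by exact_mod_cast (by omega : 0 < q)
  have hpos : 0 < Real.sqrt q / ((q : ℝ) + 1) := by positivity
  rcases design_reg G (by omega) hmin hbip hk hl with h0 | ⟨hreg, hcard, hdP, hpar, hld, hgap⟩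
  · exact lt_of_le_of_lt h0 hpos
  rcases Nat.lt_or_ge l c with hlc | hlc
  · -- small `l`
    rcases Nat.eq_zero_or_pos l with hl0 | hl0
    · subst hl0
      have : 3 * d ≤ d * d := Nat.mul_le_mul_right d hd
      omega
    rcases Nat.lt_or_ge d P.card with hdP' | hdP'
    · exact absurd (design_symm G hbip hreg hcard hdP' hl) (hno l hl0 hlc _)
    · -- `P.card = d`, `l = d`
      have hPd : P.card = d := le_antisymm hdP' hdP
      have hld' : l = d := by
        rw [hPd] at hpar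
        have h1 : d * (d - 1) = l * (d - 1) := by
          have : d * d = d + d * (d - 1) := by
            obtain ⟨e, rfl⟩ : ∃ e, d = e + 1 := ⟨d - 1, by omega⟩
            simp; ring
          omega
        exact (Nat.eq_of_mul_eq_mul_right (by omega) h1).symm
      rw [hld', sub_self, Real.sqrt_zero, zero_div] at hgap
      exact lt_of_le_of_lt hgap hpos
  · refine lt_of_le_of_lt hgap ?_
    have h1 := poly_lt hdq hc hlc hld
    have hd' : (0 : ℝ) < d := by exact_mod_cast (by omega : 0 < d)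
    have hq' : (0 : ℝ) < (q : ℝ) + 1 := by positivity
    rw [div_lt_div_iff₀ hd' hq']
    have e1 : Real.sqrt ((d : ℝ) - l) * ((q : ℝ) + 1) = Real.sqrt (((d : ℝ) - l) * ((q : ℝ) + 1) ^ 2) := by
      rw [Real.sqrt_mul' _ (by positivity), Real.sqrt_sq hq'.le]
    have e2 : Real.sqrt (q : ℝ) * d = Real.sqrt ((q : ℝ) * (d : ℝ) ^ 2) := by
      rw [Real.sqrt_mul' _ (by positivity), Real.sqrt_sq hd'.le]
    rw [e1, e2]
    have hld' : (0 : ℝ) ≤ (d : ℝ) - l := by
      have : (l : ℝ) ≤ d := by exact_mod_cast hld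
      linarith
    exact Real.sqrt_lt_sqrt (by positivity) h1

/-- the supremum is at least the gap of the plane of order `q` -/
theorem le_sup {d q : ℕ} (hd : 3 ≤ d) (hq : IsPrimePow q) (hdq : d ≤ q) :
    Real.sqrt q / ((q : ℝ) + 1) ≤ sSup (gapsMin d) :=
  le_csSup (bdd_gapsMin d (by omega)) (gap_prime_pow q hq d (by omega))

/-- no symmetric design with `l = 1` if `k = 2` or `3 (mod 4)` and a prime `p = 3 (mod 4)` divides
`k - 1` exactly -/
theorem no_plane_local {k p : ℕ} (hk : 3 ≤ k) (hk4 : k % 4 = 2 ∨ k % 4 = 3) (hp : p.Prime)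
    (hp4 : p % 4 = 3) (h1 : p ∣ k - 1) (h2 : ¬ p ^ 2 ∣ k - 1) (v : ℕ) :
    ¬ IsSymmetricDesign v k 1 := by
  intro h
  have hpar := symm_par h
  rw [one_mul] at hpar
  have hkk : 3 * k ≤ k * k := Nat.mul_le_mul_right k hk
  obtain ⟨-, hsq⟩ := brc_local h (by omega) (by omega) hp (by rintro rfl; norm_num at hp4) h1 h2 (by
    intro h3
    have := Nat.le_of_dvd (by norm_num) h3
    have := hp.two_le
    omega)
  have hodd : Odd ((v - 1) / 2) := by
    have h4 : v - 1 = k * (k - 1) := by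
      have : k * k = k + k * (k - 1) := by
        obtain ⟨e, rfl⟩ : ∃ e, k = e + 1 := ⟨k - 1, by omega⟩
        simp; ring
      omega
    have h5 : (v - 1) % 4 = 2 := by
      rw [h4, Nat.mul_mod]
      rcases hk4 with h6 | h6
      · have h7 : (k - 1) % 4 = 1 := by omega
        rw [h6, h7]
      · have h7 : (k - 1) % 4 = 2 := by omega
        rw [h6, h7]
    rw [Nat.odd_iff]
    omega
  rw [hodd.neg_one_pow] at hsq
  haveI : Fact p.Prime := ⟨hp⟩
  have h7 : IsSquare (-1 : ZMod p) := by simpa using hsq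
  rw [ZMod.exists_sq_eq_neg_one_iff] at h7
  exact h7 hp4

/-- a plane is a symmetric design -/
theorem symm_of_plane {n : ℕ} (hn : 1 ≤ n) (h : ¬ NoPlane n) :
    IsSymmetricDesign (n ^ 2 + n + 1) (n + 1) 1 := by
  classical
  unfold NoPlane at h
  push Not at h
  obtain ⟨P, L, _, _, _, _, hord⟩ := h
  obtain ⟨h1, h2, h3, -⟩ := planeRel_of_plane P L
  rw [hord] at h1 h2
  refine symm_of_rel (fun (p : P) (l : L) => p ∈ l) ?_ ?_ (by nlinarith) h2 h1 h3
  · rw [ProjectivePlane.card_points P L, hord]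
  · rw [ProjectivePlane.card_lines P L, hord]

/-- no symmetric design with an even number of points if a prime divides `k - l` exactly -/
theorem no_even_local {v k l p : ℕ} (hk : 3 ≤ k) (hkv : k + 2 ≤ v) (hv : v % 2 = 0) (hp : p.Prime)
    (hp2 : p ≠ 2) (h1 : p ∣ k - l) (h2 : ¬ p ^ 2 ∣ k - l) (h3 : ¬ p ∣ l) :
    ¬ IsSymmetricDesign v k l := by
  intro h
  have := (brc_local h (by omega) hkv hp hp2 h1 h2 h3).1
  omega

end Pool.Agent.T6.H87.GapMin
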